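import Pool.Agent.helper40.Cant.CntPm

set_option autoImplicit false

/-! # module ALPHA: most places are balanced -/

namespace Pool.Agent.helper32.Cant

open Finset

theorem alpha_nonneg {n : ℕ} (c : Cfg n) (i : ℕ) : 0 ≤ alpha c i := by
  unfold alpha
  exact ex_nonneg (isProb_mu c).1 fun _ _ => abs_nonneg _

/-- `log 2 - h(p) ≥ (p - 1/2)²` -/
theorem alpha_binary {p r : ℝ} (hp : 0 ≤ p) (hr : 0 ≤ r) (h : p + r = 1) :
    (p - 1 / 2) ^ 2 ≤ p * Real.log (2 * p) + r * Real.log (2 * r) := by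
  have key : ∀ t : ℝ, 0 ≤ t → 2 * (t - √t / √2) ≤ t * Real.log (2 * t) := by
    intro t ht
    rcases ht.eq_or_lt with h0 | h0
    · rw [← h0]; simp
    · have h2t : 0 < 2 * t := by positivity
      have hs : 0 < √(2 * t) := Real.sqrt_pos.2 h2t
      have h1 := Real.one_sub_inv_le_log_of_pos hs
      have h2 : Real.log (2 * t) = 2 * Real.log √(2 * t) := by
        rw [Real.log_sqrt h2t.le]; ring
      rw [h2]
      have h3 : t * (√(2 * t))⁻¹ = √t / √2 := by
        rw [Real.sqrt_mul (by norm_num) t]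
        have h4 : √2 ≠ 0 := by positivity
        have h5 : √t ≠ 0 := by positivity
        have h6 : t = √t * √t := (Real.mul_self_sqrt ht).symm
        field_simp
        nlinarith [h6]
      have h7 : t * (1 - (√(2 * t))⁻¹) ≤ t * Real.log √(2 * t) :=
        mul_le_mul_of_nonneg_left h1 ht
      rw [mul_sub, h3, mul_one] at h7
      linarith
  have h1 := key p hp
  have h2 := key r hr
  -- 2 (1 - (√p + √r)/√2) ≥ (p - 1/2)^2
  set a := √p with ha
  set b := √r with hb
  have ha0 : 0 ≤ a := Real.sqrt_nonneg _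
  have hb0 : 0 ≤ b := Real.sqrt_nonneg _
  have ha2 : a ^ 2 = p := Real.sq_sqrt hp
  have hb2 : b ^ 2 = r := Real.sq_sqrt hr
  have hs2 : √2 ^ 2 = (2 : ℝ) := Real.sq_sqrt (by norm_num)
  have hs0 : 0 < √(2 : ℝ) := by positivity
  have hx : 2 * a * b ≤ 1 := by nlinarith [sq_nonneg (a - b)]
  have h3 : (a + b) / √2 ≤ (3 + 2 * a * b) / 4 := by
    -- y = (a+b)/√2, y² = (1 + 2ab)/2, y ≤ (y² + 1)/2
    have h4 : ((a + b) / √2) ^ 2 = (1 + 2 * a * b) / 2 := by
      rw [div_pow, hs2]
      have : (a + b) ^ 2 = 1 + 2 * a * b := by nlinarith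
      rw [this]
    nlinarith [sq_nonneg ((a + b) / √2 - 1)]
  have h5 : (p - 1 / 2) ^ 2 = (1 - (2 * a * b) ^ 2) / 4 := by
    have : (2 * a * b) ^ 2 = 4 * p * r := by rw [← ha2, ← hb2]; ring
    rw [this]
    have hr' : r = 1 - p := by linarith
    rw [hr']; ring
  have hab : 0 ≤ 2 * a * b := by positivity
  have h6 : (p - 1 / 2) ^ 2 ≤ 2 * (1 - (a + b) / √2) := by
    rw [h5]
    nlinarith
  have h7 : 2 * (1 - (a + b) / √2) = 2 * (p - a / √2) + 2 * (r - b / √2) := by
    rw [add_div]
    linarith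
  linarith

/-- the conditional probability of the letter `b` at the place `i` -/
noncomputable def aP {n : ℕ} (c : Cfg n) (i : Fin n) (b : Bool) (x : Sp n) : ℝ :=
  ce (mu c) (cX i) (fun y => ind (y.1.2 i = b)) x

theorem aP_add {n : ℕ} (c : Cfg n) (i : Fin n) {x : Sp n} (hx : 0 < mu c x) :
    aP c i true x + aP c i false x = 1 := by
  unfold aP
  rw [← ce_add, ← ce_const (isProb_mu c).1 (cX (i : ℕ)) hx 1]
  congr 1
  funext y
  cases y.1.2 i <;> simp [ind]

theorem aP_nonneg {n : ℕ} (c : Cfg n) (i : Fin n) (b : Bool) (x : Sp n) : 0 ≤ aP c i b x :=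
  ce_nonneg (isProb_mu c).1 _ _ fun _ _ _ => ind_nonneg _

theorem aP_self {n : ℕ} (c : Cfg n) (i : Fin n) (x : Sp n) :
    aP c i (x.1.2 i) x = cnt c (i + 1) x.1 / cnt c i x.1 := by
  unfold aP ce
  have hG := cp_card_pos c
  have h1 : ∑ y, mu c y * ind (cX (i : ℕ) y = cX (i : ℕ) x) * ind (y.1.2 i = x.1.2 i)
      = pm (mu c) (cX ((i : ℕ) + 1)) x := by
    unfold pm
    refine Finset.sum_congr rfl fun y _ => ?_
    rw [mul_assoc]
    congr 1
    have h2 : cX ((i : ℕ) + 1) y = cX ((i : ℕ) + 1) x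
        ↔ (cX (i : ℕ) y = cX (i : ℕ) x ∧ y.1.2 i = x.1.2 i) := by
      simp only [cX, Prod.mk.injEq, cpfx_eq_iff, agree]
      constructor
      · rintro ⟨⟨h1, h2⟩, h3⟩
        exact ⟨⟨⟨h1, fun l hl => h2 l (by omega)⟩, h3⟩, h2 i (by omega)⟩
      · rintro ⟨⟨⟨h1, h2⟩, h3⟩, h4⟩
        refine ⟨⟨h1, fun l hl => ?_⟩, h3⟩
        by_cases hl' : (l : ℕ) < i
        · exact h2 l hl'
        · have : l = i := Fin.ext (by omega)
          rw [this]; exact h4
    rw [ind_congr h2]
    by_cases ha : cX (i : ℕ) y = cX (i : ℕ) x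
    · by_cases hb : y.1.2 i = x.1.2 i
      · rw [ind_of ha, ind_of hb, ind_of ⟨ha, hb⟩, mul_one]
      · have h0 : ind (cX (i : ℕ) y = cX (i : ℕ) x ∧ y.1.2 i = x.1.2 i) = 0 :=
          ind_of_not (fun h => hb h.2)
        rw [ind_of_not hb, h0, mul_zero]
    · have h0 : ind (cX (i : ℕ) y = cX (i : ℕ) x ∧ y.1.2 i = x.1.2 i) = 0 :=
        ind_of_not (fun h => ha h.1)
      rw [ind_of_not ha, h0, zero_mul]
  rw [h1, cp_pm_cX, cp_pm_cX]
  rw [div_div_div_cancel_right₀ (by positivity)]

theorem cnt_split {n : ℕ} (c : Cfg n) (i : Fin n) (x : Fin (3 ^ n) × Word n) :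
    cnt c i x = cnt c (i + 1) x + cntD c i x := by
  unfold cnt cntD
  rw [← Finset.sum_add_distrib]
  refine Finset.sum_congr rfl fun w' _ => ?_
  have e1 : agree ((i : ℕ) + 1) x.2 w' ↔ (agree (i : ℕ) x.2 w' ∧ w' i = x.2 i) := by
    unfold agree
    constructor
    · intro h
      exact ⟨fun l hl => h l (by omega), h i (by omega)⟩
    · rintro ⟨h1, h2⟩ l hl
      by_cases hl' : (l : ℕ) < i
      · exact h1 l hl'
      · have : l = i := Fin.ext (by omega)
        rw [this]; exact h2
  have e2 : differ (i : ℕ) x.2 w' ↔ w' i ≠ x.2 i := by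
    unfold differ
    constructor
    · intro h; exact h i rfl
    · intro h l hl
      have : l = i := Fin.ext hl
      rw [this]; exact h
  rw [e1, e2]
  by_cases h1 : (x.1, w') ∈ c.G ∧ agree (i : ℕ) x.2 w'
  · by_cases h2 : w' i = x.2 i
    · rw [ind_of h1, ind_of ⟨h1.1, h1.2, h2⟩, ind_of_not (fun h => h.2.2 h2), add_zero]
    · rw [ind_of h1, ind_of_not (fun h => h2 h.2.2), ind_of ⟨h1.1, h1.2, h2⟩, zero_add]
  · rw [ind_of_not h1, ind_of_not (fun h => h1 ⟨h.1, h.2.1⟩),
      ind_of_not (fun h => h1 ⟨h.1, h.2.1⟩), add_zero]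

/-- one place -/
theorem alpha_place {n : ℕ} (c : Cfg n) (i : Fin n) :
    alpha c i ^ 2 ≤ Real.log 2 + ex (mu c) (fun x => Real.log (cnt c (i + 1) x.1))
      - ex (mu c) (fun x => Real.log (cnt c i x.1)) := by
  have hμ := isProb_mu c
  -- the expectation of a function of the probability of the letter
  have h1 : ∀ F : ℝ → ℝ, ex (mu c) (fun x => F (aP c i (x.1.2 i) x))
      = ex (mu c) (fun x => aP c i true x * F (aP c i true x)
          + aP c i false x * F (aP c i false x)) := by
    intro F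
    have h2 : ∀ b : Bool, ex (mu c) (fun x => aP c i b x * F (aP c i b x))
        = ex (mu c) (fun x => F (aP c i b x) * ind (x.1.2 i = b)) := by
      intro b
      rw [← ex_mul_ce hμ.1 (cX (i : ℕ)) (g := fun x => F (aP c i b x))
        (fun x y hxy => by
          have : aP c i b x = aP c i b y := ce_eq hxy
          rw [this]) (fun y => ind (y.1.2 i = b))]
      refine ex_congr hμ.1 fun x _ => ?_
      rw [mul_comm]
      rfl
    rw [ex_add, h2, h2, ← ex_add]
    refine ex_congr hμ.1 fun x _ => ?_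
    rcases hb : x.1.2 i with _ | _ <;> simp [ind]
  have h2 : ex (mu c) (fun x => Real.log (2 * aP c i (x.1.2 i) x))
      = Real.log 2 + ex (mu c) (fun x => Real.log (cnt c (i + 1) x.1))
      - ex (mu c) (fun x => Real.log (cnt c i x.1)) := by
    rw [← ex_const hμ (Real.log 2), ← ex_add, ← ex_sub]
    refine ex_congr hμ.1 fun x hx => ?_
    have hx' := (mu_pos_iff c x).1 hx
    have h3 := cnt_pos c i x.1 hx'
    have h4 := cnt_pos c (i + 1) x.1 hx'
    rw [aP_self, Real.log_mul (by norm_num) (by positivity), Real.log_div (by positivity)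
      (by positivity)]
    ring
  rw [← h2, h1 (fun t => Real.log (2 * t))]
  have h3 : alpha c i ≤ √(ex (mu c) (fun x => (aP c i true x - 1 / 2) ^ 2)) := by
    have h4 : alpha c i = ex (mu c) (fun x => |aP c i true x - 1 / 2|) := by
      unfold alpha
      refine ex_congr hμ.1 fun x hx => ?_
      have hx' := (mu_pos_iff c x).1 hx
      have h5 := cnt_pos c i x.1 hx'
      have h6 : cntD c i x.1 / cnt c i x.1 = 1 - aP c i (x.1.2 i) x := by
        rw [aP_self, eq_sub_iff_add_eq, ← add_div, add_comm, ← cnt_split]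
        exact div_self (by positivity)
      rw [h6]
      have h7 := aP_add c i hx
      rcases hb : x.1.2 i with _ | _
      · congr 1
        linarith
      · rw [abs_sub_comm]
        congr 1
        ring
    rw [h4]
    have h5 := ex_le_sqrt hμ (fun x => |aP c i true x - 1 / 2|)
    simpa using h5
  have h4 : alpha c i ^ 2 ≤ ex (mu c) (fun x => (aP c i true x - 1 / 2) ^ 2) := by
    have h5 := pow_le_pow_left₀ (alpha_nonneg c i) h3 2
    rwa [Real.sq_sqrt (ex_nonneg hμ.1 fun _ _ => sq_nonneg _)] at h5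
  refine h4.trans (ex_mono hμ.1 fun x hx => ?_)
  exact alpha_binary (aP_nonneg c i true x) (aP_nonneg c i false x) (aP_add c i hx)

theorem alpha_budget {n : ℕ} (c : Cfg n) :
    ∑ i ∈ range n, alpha c i ^ 2 ≤ Real.log (6 ^ n / c.G.card) := by
  have hμ := isProb_mu c
  have hG := cp_card_pos c
  set e : ℕ → ℝ := fun i => ex (mu c) (fun x => Real.log (cnt c i x.1)) with he
  have h1 : ∀ i ∈ range n, alpha c i ^ 2 ≤ Real.log 2 + (e (i + 1) - e i) := by
    intro i hi
    have := alpha_place c ⟨i, mem_range.1 hi⟩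
    simp only [he]
    linarith
  have h2 := Finset.sum_le_sum h1
  rw [Finset.sum_add_distrib, Finset.sum_range_sub e n, Finset.sum_const, card_range,
    nsmul_eq_mul] at h2
  have h3 : e n = 0 := by
    have : e n = ex (mu c) (fun _ => 0) := by
      refine ex_congr hμ.1 fun x hx => ?_
      have hx' := (mu_pos_iff c x).1 hx
      have h4 : cnt c n x.1 = 1 := by
        unfold cnt
        rw [Finset.sum_eq_single x.1.2]
        · rw [ind_of]
          exact ⟨hx', fun _ _ => rfl⟩
        · intro w' _ hw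
          rw [ind_of_not]
          rintro ⟨_, h⟩
          exact hw (funext fun l => h l l.2)
        · intro h; exact absurd (Finset.mem_univ _) h
      simp only [h4, Real.log_one]
    rw [this, ex_const hμ]
  have h4 := cp_ex_log_cnt c 0
  have h5 : Real.log (6 ^ n / c.G.card)
      = n * Real.log 2 + n * Real.log 3 - Real.log c.G.card := by
    rw [Real.log_div (by positivity) hG.ne', Real.log_pow]
    have : Real.log 6 = Real.log 2 + Real.log 3 := by
      rw [← Real.log_mul (by norm_num) (by norm_num)]; norm_num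
    rw [this]; ring
  rw [h5]
  have h6 : e 0 = ex (mu c) (fun x => Real.log (cnt c 0 x.1)) := rfl
  simp only [Nat.cast_zero, zero_mul, sub_zero] at h4
  rw [h3] at h2
  linarith

end Pool.Agent.helper32.Cant
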