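import Pool.Agent.helper72.Cant.ENT
import Pool.Agent.helper35.Cant.MU

set_option autoImplicit false

/-! # module BUD1: the entropy budget of the radius -/

namespace Pool.Agent.helper32.Cant

open Finset

theorem bud_cell_div {n k k' : ℕ} (h : k ≤ k') (v : ZMod (3 ^ (2 * n))) :
    cell n k v = cell n k' v / 3 ^ ((2 * n - k) - (2 * n - k')) := by
  unfold cell
  rw [Nat.div_div_eq_div_mul, ← pow_add]
  congr 2
  omega

theorem bud_bR_div {n : ℕ} (c : Cfg n) {j j' : ℕ} (h : j ≤ j') (x : Sp n) :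
    bR c j x = bR c j' x / 3 ^ ((n - j) - (n - j')) := by
  unfold bR
  rw [Nat.div_div_eq_div_mul, ← pow_add]
  congr 2
  omega

/-- the observables are monotone, without any condition -/
theorem bud_ref_obs {n : ℕ} (c : Cfg n) {k k' j j' : ℕ} (hk : k ≤ k') (hj : j ≤ j') :
    Ref (obs c k j) (obs c k' j') := by
  intro x y hxy
  simp only [obs, Prod.mk.injEq] at hxy ⊢
  obtain ⟨h1, h2, h3, h4⟩ := hxy
  refine ⟨h1, h2, ?_, ?_⟩
  · rw [bud_cell_div hk, bud_cell_div hk (uu c y), h3]
  · rw [bud_bR_div c hj, bud_bR_div c hj y, h4]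

theorem iota_nonneg {n : ℕ} (c : Cfg n) {A k j : ℕ} (hkn : k + A ≤ 2 * n) :
    0 ≤ iota c A k j := by
  unfold iota
  have := Hc_anti (isProb_mu c) (fun x => cell n (k + A) (uu c x))
    (bud_ref_obs c (le_refl (k - A)) (Nat.le_add_right j A))
  linarith

theorem ell_nonneg' {n : ℕ} (c : Cfg n) (A i k j : ℕ) : 0 ≤ ell c A i k j := by
  unfold ell
  have h : Ref (fun z : Sp2 n => obs c (k - A) j z.1) (fun z => obs c (k + A) (j + A) z.1) :=
    fun z z' hz => bud_ref_obs c (by omega) (Nat.le_add_right j A) _ _ hz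
  have := Hc_anti (isProb_mu2 c i) (fun z => z.2) h
  linarith

theorem ell_nonneg {n : ℕ} (c : Cfg n) {A i k j : ℕ} (hkn : k + A ≤ 2 * n) :
    0 ≤ ell c A i k j := ell_nonneg' c A i k j

/-- telescoping with step `m` -/
theorem bud_telescope (a : ℕ → ℝ) (L m : ℕ) :
    ∑ l ∈ range L, (a l - a (l + m)) = ∑ l ∈ range m, a l - ∑ l ∈ range m, a (L + l) := by
  rw [Finset.sum_sub_distrib]
  have h1 := Finset.sum_range_add a L m
  have h2 := Finset.sum_range_add a m L
  rw [add_comm m L] at h2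
  have h3 : ∑ l ∈ range L, a (l + m) = ∑ l ∈ range L, a (m + l) :=
    Finset.sum_congr rfl fun l _ => by rw [add_comm]
  rw [h3]
  linarith

theorem iota_budget {n : ℕ} (c : Cfg n) {q A k L : ℕ} (hq : 1 ≤ q) (hqA : q ∣ A) (hA : A ≤ k)
    (hkn : k + A ≤ 2 * n) :
    ∑ l ∈ range L, iota c A k (l * q) ≤ (A / q : ℕ) * (2 * A * Real.log 3) := by
  obtain ⟨m, rfl⟩ := hqA
  have hm : q * m / q = m := Nat.mul_div_cancel_left m hq
  rw [hm]
  set A := q * m with hAdef
  set a : ℕ → ℝ := fun l => Hc (mu c) (fun x => cell n (k + A) (uu c x)) (obs c (k - A) (l * q))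
    with ha
  have h1 : ∀ l, iota c A k (l * q) = a l - a (l + m) := by
    intro l
    simp only [iota, ha]
    have : l * q + A = (l + m) * q := by rw [hAdef]; ring
    rw [this]
  simp_rw [h1]
  rw [bud_telescope]
  have h2 : 0 ≤ ∑ l ∈ range m, a (L + l) :=
    Finset.sum_nonneg fun l _ => Hc_nonneg (isProb_mu c) _ _
  have h3 : ∀ l ∈ range m, a l ≤ 2 * A * Real.log 3 := by
    intro l _
    have hpos : 0 < 3 ^ (2 * A) := pow_pos (by norm_num) _
    have := Hc_le_log (isProb_mu c) (fun x => cell n (k + A) (uu c x)) (obs c (k - A) (l * q))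
      (γ := Fin (3 ^ (2 * A)))
      (fun x => ⟨cell n (k + A) (uu c x) % 3 ^ (2 * A), Nat.mod_lt _ hpos⟩) (by
        intro x y hxy hc
        simp only [obs, Prod.mk.injEq] at hxy
        obtain ⟨-, -, h3, -⟩ := hxy
        have h4 : cell n (k + A) (uu c x) % 3 ^ (2 * A) = cell n (k + A) (uu c y) % 3 ^ (2 * A) := by
          simpa using congrArg Fin.val hc
        have h5 : k - A ≤ k + A := by omega
        rw [bud_cell_div h5, bud_cell_div h5 (uu c y)] at h3
        have h6 : (2 * n - (k - A)) - (2 * n - (k + A)) = 2 * A := by omega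
        rw [h6] at h3
        rw [← Nat.div_add_mod (cell n (k + A) (uu c x)) (3 ^ (2 * A)),
          ← Nat.div_add_mod (cell n (k + A) (uu c y)) (3 ^ (2 * A)), h3, h4])
    have hcard : Real.log (Fintype.card (Fin (3 ^ (2 * A)))) = 2 * A * Real.log 3 := by
      rw [Fintype.card_fin]
      push_cast
      rw [Real.log_pow]
      push_cast
      ring
    rw [hcard] at this
    exact this
  have h4 := Finset.sum_le_card_nsmul (range m) a _ h3
  rw [card_range, nsmul_eq_mul] at h4
  linarith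

end Pool.Agent.helper32.Cant
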