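import Pool.Agent.helper40.Cant.CntPm
import Pool.Agent.helper40.Cant.BUD1

set_option autoImplicit false

/-! # module BUD2: the entropy budget of the word -/

namespace Pool.Agent.helper32.Cant

open Finset

/-- upper bound: given the word, the resampled word has `n - i` free letters -/
theorem bud2_upper {n : ℕ} (c : Cfg n) {i : ℕ} (hi : i ≤ n) (k j : ℕ) :
    Hc (mu2 c i) (fun z => z.2) (fun z => obs c k j z.1) ≤ n * Real.log 2 - i * Real.log 2 := by
  set Z' : Sp2 n → (Word n × (Fin (n - i) → Bool)) := fun z =>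
    (z.1.1.2, fun l => z.2 ⟨i + l, by omega⟩) with hZ'
  have h1 : Hc (mu2 c i) (fun z => z.2) (fun z => obs c k j z.1)
      = Hc (mu2 c i) Z' (fun z => obs c k j z.1) := by
    refine cp_Hc_supp (isProb_mu2 c i).1 _ fun z z' hz hz' hX => ?_
    have hw : z.1.1.2 = z'.1.1.2 := by
      simp only [obs, Prod.mk.injEq] at hX
      exact hX.2.1
    have ha := ((mu2_pos_iff c i z).1 hz).2.2
    have ha' := ((mu2_pos_iff c i z').1 hz').2.2
    constructor
    · intro h
      simp only [hZ', Prod.mk.injEq]
      refine ⟨hw, ?_⟩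
      rw [h]
    · intro h
      simp only [hZ', Prod.mk.injEq] at h
      funext l
      by_cases hl : (l : ℕ) < i
      · rw [ha l hl, ha' l hl, hw]
      · have h2 := congrFun h.2 ⟨l - i, by omega⟩
        have h3 : i + ((l : ℕ) - i) = l := by omega
        simp only [h3] at h2
        exact h2
  rw [h1]
  have h2 := Hc_le_log (isProb_mu2 c i) Z' (fun z => obs c k j z.1)
    (γ := Fin (n - i) → Bool) (fun z => (Z' z).2) (by
      intro z z' hX hc
      have hw : z.1.1.2 = z'.1.1.2 := by
        simp only [obs, Prod.mk.injEq] at hX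
        exact hX.2.1
      exact Prod.ext hw hc)
  refine h2.trans (le_of_eq ?_)
  rw [Fintype.card_fun, Fintype.card_bool, Fintype.card_fin]
  push_cast
  rw [Real.log_pow, Nat.cast_sub hi]
  ring

theorem bud2_lower {n : ℕ} (c : Cfg n) (i k j : ℕ) :
    Real.log c.G.card - n * Real.log 3 - i * Real.log 2
      ≤ Hc (mu2 c i) (fun z => z.2) (fun z => obs c k j z.1) := by
  have h1 : Ref (fun z : Sp2 n => obs c k j z.1) (fun z => z.1) := fun z z' h => by
    show obs c k j z.1 = obs c k j z'.1
    have : z.1 = z'.1 := h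
    rw [this]
  have h2 := Hc_anti (isProb_mu2 c i) (fun z => z.2) h1
  have h3 : Hc (mu2 c i) (fun z => z.2) (fun z => z.1)
      = ex (mu c) (fun x => Real.log (cnt c i x.1)) := by
    rw [← ex_mu2_fst c i]
    unfold Hc
    refine ex_congr (isProb_mu2 c i).1 fun z hz => ?_
    congr 1
    have h4 : pm (mu2 c i) (fun z : Sp2 n => z.1) z = mu c z.1 := by
      rw [pm_mu2_fst c i (fun x => x) z]
      unfold pm
      rw [Finset.sum_eq_single z.1]
      · rw [ind_of rfl, mul_one]
      · intro y _ hy
        rw [ind_of_not hy, mul_zero]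
      · intro h; exact absurd (Finset.mem_univ _) h
    have h5 : pm (mu2 c i) (fun y : Sp2 n => (y.1, y.2)) z = mu2 c i z := by
      unfold pm
      rw [Finset.sum_eq_single z]
      · rw [ind_of rfl, mul_one]
      · intro y _ hy
        rw [ind_of_not, mul_zero]
        intro h
        simp only [Prod.mk.injEq] at h
        exact hy (Prod.ext h.1 h.2)
      · intro h; exact absurd (Finset.mem_univ _) h
    obtain ⟨hG, hG', ha⟩ := (mu2_pos_iff c i z).1 hz
    have h6 := cnt_pos c i z.1.1 hG
    have h7 := (mu_pos_iff c z.1).2 hG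
    rw [h4, h5]
    unfold mu2
    rw [ind_of ⟨hG', ha⟩, ← div_div, div_self h7.ne', one_div_one_div]
  rw [h3] at h2
  exact (cp_ex_log_cnt c i).trans h2

/-- the budget for one place `i` -/
theorem bud2_place {n : ℕ} (c : Cfg n) {q m i : ℕ} (hi : i ≤ n) (s : ℕ) (L : ℕ) :
    ∑ l ∈ range L, ell c (q * m) i (s + l * q) (l * q)
      ≤ (2 * m : ℕ) * Real.log (6 ^ n / c.G.card) := by
  set A := q * m with hA
  set a : ℕ → ℝ := fun l => Hc (mu2 c i) (fun z => z.2)
    (fun z => obs c (s + l * q - A) (l * q) z.1) with ha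
  have hG := cp_card_pos c
  have h1 : ∀ l ∈ range L, ell c A i (s + l * q) (l * q) ≤ a l - a (l + 2 * m) := by
    intro l _
    unfold ell
    have hR : Ref (fun z : Sp2 n => obs c (s + l * q + A) (l * q + A) z.1)
        (fun z => obs c (s + (l + 2 * m) * q - A) ((l + 2 * m) * q) z.1) := by
      intro z z' hz
      refine bud_ref_obs c ?_ ?_ _ _ hz
      · have : (l + 2 * m) * q = l * q + A + A := by rw [hA]; ring
        omega
      · have : (l + 2 * m) * q = l * q + A + A := by rw [hA]; ring
        omega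
    have := Hc_anti (isProb_mu2 c i) (fun z => z.2) hR
    simp only [ha]
    linarith
  refine (Finset.sum_le_sum h1).trans ?_
  rw [bud_telescope]
  have h2 := Finset.sum_le_card_nsmul (range (2 * m)) a (n * Real.log 2 - i * Real.log 2)
    (fun l _ => bud2_upper c hi _ _)
  have h3 := Finset.card_nsmul_le_sum (range (2 * m)) (fun l => a (L + l))
    (Real.log c.G.card - n * Real.log 3 - i * Real.log 2) (fun l _ => bud2_lower c i _ _)
  rw [card_range, nsmul_eq_mul] at h2 h3
  have h4 : Real.log (6 ^ n / c.G.card)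
      = (n * Real.log 2 - i * Real.log 2)
        - (Real.log c.G.card - n * Real.log 3 - i * Real.log 2) := by
    rw [Real.log_div (by positivity) hG.ne', Real.log_pow]
    have : Real.log 6 = Real.log 2 + Real.log 3 := by
      rw [← Real.log_mul (by norm_num) (by norm_num)]; norm_num
    rw [this]; ring
  rw [h4, mul_sub]
  linarith

theorem ell_budget {n : ℕ} (c : Cfg n) {q A h : ℕ} (hq : 1 ≤ q) (hqA : q ∣ A)
    (hA : 4 * h + q ≤ A) :
    ∑ k ∈ Ico A (n - A), ∑ l ∈ range (k / q), ell c A (k + 2 * h - l * q) k (l * q)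
      ≤ n * (2 * (A / q : ℕ)) * Real.log (6 ^ n / c.G.card) := by
  classical
  obtain ⟨m, rfl⟩ := hqA
  have hm : q * m / q = m := Nat.mul_div_cancel_left m hq
  rw [hm]
  set A := q * m with hAdef
  -- the double sum as a sum over the places
  have h1 : ∑ k ∈ Ico A (n - A), ∑ l ∈ range (k / q), ell c A (k + 2 * h - l * q) k (l * q)
      ≤ ∑ i ∈ range n, ∑ l ∈ range n, ell c A i (i - 2 * h + l * q) (l * q) := by
    rw [Finset.sum_sigma', ← Finset.sum_product']
    set F : ℕ × ℕ → ℝ := fun p => ell c A p.1 (p.1 - 2 * h + p.2 * q) (p.2 * q) with hF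
    set φ : (_ : ℕ) × ℕ → ℕ × ℕ := fun p => (p.1 + 2 * h - p.2 * q, p.2) with hφ
    have hmem : ∀ p ∈ (Ico A (n - A)).sigma (fun k => range (k / q)),
        p.2 * q + q ≤ p.1 ∧ p.1 < n - A ∧ A ≤ p.1 := by
      intro p hp
      rw [Finset.mem_sigma, mem_Ico, mem_range] at hp
      obtain ⟨⟨h1, h2⟩, h3⟩ := hp
      refine ⟨?_, h2, h1⟩
      have := (Nat.le_div_iff_mul_le hq).1 (Nat.succ_le_of_lt h3)
      have h4 : p.snd.succ * q = p.snd * q + q := by rw [Nat.succ_mul]
      omega
    have e1 : ∑ p ∈ (Ico A (n - A)).sigma (fun k => range (k / q)),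
        ell c A (p.1 + 2 * h - p.2 * q) p.1 (p.2 * q)
        = ∑ p ∈ (Ico A (n - A)).sigma (fun k => range (k / q)), F (φ p) := by
      refine Finset.sum_congr rfl fun p hp => ?_
      obtain ⟨h1, h2, h3⟩ := hmem p hp
      simp only [hF, hφ]
      congr 1
      omega
    rw [e1]
    have hinj : Set.InjOn φ ((Ico A (n - A)).sigma (fun k => range (k / q)) : Finset _) := by
      intro p hp p' hp' hpp
      obtain ⟨h1, h2, h3⟩ := hmem p hp
      obtain ⟨h1', h2', h3'⟩ := hmem p' hp'
      simp only [hφ, Prod.mk.injEq] at hpp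
      obtain ⟨e1, e2⟩ := hpp
      rcases p with ⟨k, l⟩
      rcases p' with ⟨k', l'⟩
      simp only at *
      subst e2
      have : k = k' := by omega
      subst this
      rfl
    rw [← Finset.sum_image (f := F) hinj]
    refine Finset.sum_le_sum_of_subset_of_nonneg ?_ fun p _ _ => ell_nonneg' c _ _ _ _
    intro x hx
    rw [Finset.mem_image] at hx
    obtain ⟨p, hp, rfl⟩ := hx
    obtain ⟨h1, h2, h3⟩ := hmem p hp
    rw [Finset.mem_product, mem_range, mem_range]
    constructor
    · simp only [hφ]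
      omega
    · simp only [hφ]
      have : p.2 ≤ p.2 * q := Nat.le_mul_of_pos_right _ hq
      omega
  refine h1.trans ?_
  have h2 := Finset.sum_le_card_nsmul (range n)
    (fun i => ∑ l ∈ range n, ell c A i (i - 2 * h + l * q) (l * q)) _
    (fun i hi => bud2_place c (q := q) (m := m) (mem_range.1 hi).le (i - 2 * h) n)
  rw [card_range, nsmul_eq_mul] at h2
  refine h2.trans (le_of_eq ?_)
  push_cast
  ring

end Pool.Agent.helper32.Cant
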