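import Pool.Agent.helper72.Cant.ENT
import Pool.Agent.helper35.Cant.MU

set_option autoImplicit false

/-! # counting words over a centre: `cnt` as a conditional weight -/

namespace Pool.Agent.helper32.Cant

open Finset

section gen

variable {Ω : Type} [Fintype Ω]

theorem cp_ex_inv_pm_le {μ : Ω → ℝ} (hμ : ∀ ω, 0 ≤ μ ω) {γ : Type} [Fintype γ] (X : Ω → γ) :
    ex μ (fun ω => 1 / pm μ X ω) ≤ Fintype.card γ := by
  classical
  unfold ex
  have h1 : ∑ ω, μ ω * (1 / pm μ X ω) = ∑ g : γ, ∑ ω, μ ω * ind (X ω = g) * (1 / pm μ X ω) := by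
    rw [Finset.sum_comm]
    refine Finset.sum_congr rfl fun ω _ => ?_
    rw [← Finset.sum_mul, ← Finset.mul_sum]
    have : ∑ g : γ, ind (X ω = g) = 1 := by
      simp only [ind]
      rw [Finset.sum_ite_eq]
      simp
    rw [this, mul_one]
  rw [h1]
  have h2 : ∀ g : γ, ∑ ω, μ ω * ind (X ω = g) * (1 / pm μ X ω) ≤ 1 := by
    intro g
    by_cases hg : ∃ ω0, X ω0 = g
    · obtain ⟨ω0, rfl⟩ := hg
      have h3 : ∀ ω, μ ω * ind (X ω = X ω0) * (1 / pm μ X ω)
          = μ ω * ind (X ω = X ω0) * (1 / pm μ X ω0) := by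
        intro ω
        by_cases h : X ω = X ω0
        · rw [pm_eq h]
        · rw [ind_of_not h]; ring
      simp_rw [h3]
      rw [← Finset.sum_mul]
      have h4 : ∑ ω, μ ω * ind (X ω = X ω0) = pm μ X ω0 := rfl
      rw [h4]
      rcases (pm_nonneg hμ X ω0).eq_or_lt with h0 | h0
      · rw [← h0]; simp
      · rw [mul_one_div, div_self h0.ne']
    · have h3 : ∀ ω, μ ω * ind (X ω = g) * (1 / pm μ X ω) = 0 := by
        intro ω
        rw [ind_of_not (fun h => hg ⟨ω, h⟩)]; ring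
      simp_rw [h3]
      simp
  have := Finset.sum_le_card_nsmul (univ : Finset γ) _ 1 (fun g _ => h2 g)
  simpa using this

theorem cp_jensen {μ : Ω → ℝ} (hμ : IsProb μ) {f : Ω → ℝ} (hf : ∀ ω, 0 < μ ω → 0 < f ω) {C : ℝ}
    (hC : 0 < C) (h : ex μ (fun ω => 1 / f ω) ≤ C) : - Real.log C ≤ ex μ (fun ω => Real.log (f ω)) := by
  have h1 : ∀ ω, 0 < μ ω → (1 - Real.log C) - (1 / C) * (1 / f ω) ≤ Real.log (f ω) := by
    intro ω hω
    have h2 := hf ω hω
    have h3 := Real.one_sub_inv_le_log_of_pos (mul_pos hC h2)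
    rw [Real.log_mul hC.ne' h2.ne'] at h3
    have h4 : (C * f ω)⁻¹ = (1 / C) * (1 / f ω) := by
      rw [mul_inv]; simp
    rw [h4] at h3
    linarith
  have h2 := ex_mono hμ.1 h1
  rw [ex_sub, ex_const hμ, ex_smul] at h2
  have h3 : (1 / C) * ex μ (fun ω => 1 / f ω) ≤ (1 / C) * C :=
    mul_le_mul_of_nonneg_left h (by positivity)
  rw [one_div, inv_mul_cancel₀ hC.ne'] at h3
  rw [one_div] at h2
  linarith

/-- the conditional entropy sees only the support -/
theorem cp_Hc_supp {μ : Ω → ℝ} (hμ : ∀ ω, 0 ≤ μ ω) {α ζ ζ' : Type} (X : Ω → α) {Z : Ω → ζ}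
    {Z' : Ω → ζ'}
    (h : ∀ ω ω', 0 < μ ω → 0 < μ ω' → X ω = X ω' → (Z ω = Z ω' ↔ Z' ω = Z' ω')) :
    Hc μ Z X = Hc μ Z' X := by
  unfold Hc
  refine ex_congr hμ fun ω hω => ?_
  congr 2
  unfold pm
  refine Finset.sum_congr rfl fun y _ => ?_
  rcases (hμ y).eq_or_lt with h0 | h0
  · rw [← h0]; simp
  · congr 1
    refine ind_congr ?_
    simp only [Prod.mk.injEq]
    constructor
    · rintro ⟨h1, h2⟩
      exact ⟨h1, (h y ω h0 hω h1).1 h2⟩
    · rintro ⟨h1, h2⟩
      exact ⟨h1, (h y ω h0 hω h1).2 h2⟩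

end gen

/-- the first `i` letters of a word -/
def cpfx {n : ℕ} (i : ℕ) (w : Word n) : Fin i → Bool :=
  fun l => if h : (l : ℕ) < n then w ⟨l, h⟩ else false

theorem cpfx_eq_iff {n : ℕ} {i : ℕ} {w w' : Word n} : cpfx i w' = cpfx i w ↔ agree i w w' := by
  constructor
  · intro h l hl
    have := congrFun h ⟨l, hl⟩
    simpa [cpfx] using this
  · intro h
    funext l
    unfold cpfx
    split_ifs with hl
    · exact h ⟨l, hl⟩ l.2
    · rfl

/-- centre, prefix and translation -/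
def cX {n : ℕ} (i : ℕ) (x : Sp n) : (Fin (3 ^ n) × (Fin i → Bool)) × ZMod (3 ^ (2 * n)) :=
  ((x.1.1, cpfx i x.1.2), x.2)

theorem cp_pm_cX {n : ℕ} (c : Cfg n) (i : ℕ) (x : Sp n) :
    pm (mu c) (cX i) x = cnt c i x.1 / ((c.G.card : ℝ) * 3 ^ (2 * n)) := by
  unfold pm cnt
  rw [Finset.sum_div, Fintype.sum_prod_type, Fintype.sum_prod_type]
  rw [Finset.sum_eq_single x.1.1]
  · refine Finset.sum_congr rfl fun w' _ => ?_
    rw [Finset.sum_eq_single x.2]
    · unfold mu
      by_cases hG : (x.1.1, w') ∈ c.G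
      · by_cases ha : agree i x.1.2 w'
        · rw [if_pos hG, ind_of, ind_of ⟨hG, ha⟩, mul_one]
          simp only [cX, cpfx_eq_iff.2 ha]
        · rw [ind_of_not, ind_of_not]
          · simp
          · exact fun h => ha h.2
          · simp only [cX, Prod.mk.injEq, true_and, and_true]
            exact fun h => ha (cpfx_eq_iff.1 h)
      · have h0 : ind ((x.1.1, w') ∈ c.G ∧ agree i x.1.2 w') = 0 :=
          ind_of_not (fun h => hG h.1)
        rw [if_neg hG, h0]
        simp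
    · intro t _ ht
      rw [ind_of_not, mul_zero]
      simp only [cX, Prod.mk.injEq]
      exact fun h => ht h.2
    · intro h; exact absurd (Finset.mem_univ _) h
  · intro ξ _ hξ
    refine Finset.sum_eq_zero fun w' _ => Finset.sum_eq_zero fun t _ => ?_
    rw [ind_of_not, mul_zero]
    simp only [cX, Prod.mk.injEq]
    exact fun h => hξ h.1.1
  · intro h; exact absurd (Finset.mem_univ _) h

theorem cp_card_pos {n : ℕ} (c : Cfg n) : (0 : ℝ) < c.G.card := by
  exact_mod_cast Finset.card_pos.2 c.ne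

/-- the mean number of words is not too small -/
theorem cp_ex_log_cnt {n : ℕ} (c : Cfg n) (i : ℕ) :
    Real.log c.G.card - n * Real.log 3 - i * Real.log 2
      ≤ ex (mu c) (fun x => Real.log (cnt c i x.1)) := by
  have hG := cp_card_pos c
  have h1 := cp_ex_inv_pm_le (isProb_mu c).1 (cX (n := n) i)
  have hN : (0 : ℝ) < 3 ^ (2 * n) := by positivity
  have h2 : ex (mu c) (fun x => 1 / cnt c i x.1) ≤ 3 ^ n * 2 ^ i / c.G.card := by
    have h3 : (fun x : Sp n => 1 / pm (mu c) (cX i) x)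
        = fun x => ((c.G.card : ℝ) * 3 ^ (2 * n)) * (1 / cnt c i x.1) := by
      funext x
      rw [cp_pm_cX]
      rw [one_div_div, mul_one_div]
    rw [h3, ex_smul] at h1
    have h4 : (Fintype.card ((Fin (3 ^ n) × (Fin i → Bool)) × ZMod (3 ^ (2 * n))) : ℝ)
        = 3 ^ n * 2 ^ i * 3 ^ (2 * n) := by
      rw [Fintype.card_prod, Fintype.card_prod, Fintype.card_fun, ZMod.card]
      simp
    rw [h4] at h1
    rw [le_div_iff₀ hG]
    have h5 : (c.G.card : ℝ) * 3 ^ (2 * n) * ex (mu c) (fun x => 1 / cnt c i x.1)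
        = (ex (mu c) (fun x => 1 / cnt c i x.1) * c.G.card) * 3 ^ (2 * n) := by ring
    rw [h5] at h1
    exact le_of_mul_le_mul_right h1 hN
  have h3 := cp_jensen (isProb_mu c) (f := fun x => cnt c i x.1) (fun x hx => by
    have := cnt_pos c i x.1 ((mu_pos_iff c x).1 hx)
    linarith) (C := 3 ^ n * 2 ^ i / c.G.card) (by positivity) h2
  rw [Real.log_div (by positivity) hG.ne', Real.log_mul (by positivity) (by positivity),
    Real.log_pow, Real.log_pow] at h3
  linarith

end Pool.Agent.helper32.Cant
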